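import Pool.Agent.Helper85.AE.FamD

set_option autoImplicit false

/-! Functions whose values at almost all integers have nearly minimal additive energy. -/

namespace Pool.Agent.Helper85.AE
open Finset Filter
open Pool.Agent.TH935.GF (En)

/-- the values of `F` at almost all integers have nearly minimal additive energy, apart from very small values -/
def Fam (F : ℕ → ℤ) : Prop :=
  ∀ (C : ℕ) (ε : ℝ), 0 < ε → ∃ h C₁ x₀ : ℕ, 1 ≤ h ∧ ∀ x : ℕ, x₀ ≤ x → ∃ N : Finset ℕ, N ⊆ Icc 1 x ∧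
    (∃ E : Finset ℕ, (E.card : ℝ) ≤ ε * x ∧
      ∀ n ∈ Icc 1 x, n ∉ N → (n : ℝ) / Real.log x ^ C ≤ |(F n : ℝ)| → n ∈ E) ∧
    (∀ n ∈ N, |(F n : ℝ)| ≤ x * Real.log x ^ C₁) ∧
    (En h (fun n : {n // n ∈ N} => F n.1) : ℝ) * x ≤ Real.log x ^ C₁ * (x : ℝ) ^ (2 * h)

theorem fam_mod {f : ℕ → ℕ} {c : ℤ} (hf : Mod f c) (hc : c ≠ 0) (u v w : ℤ) (hu : u ≠ 0) :
    Fam (fun n => u * n + v * f n + w) := fun C ε hε => family hf hc u v w hu C ε hε

theorem fam_leib {D : ℕ → ℤ} {c : ℤ} (hD : Leib D c) (hc : c ≠ 0) (u w : ℤ) :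
    Fam (fun n => u * n + D n + w) := fun C ε hε => familyD hD hc u w C ε hε

end Pool.Agent.Helper85.AE
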