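import Pool.Agent.Helper85.AE.Fam

set_option autoImplicit false

/-! The additive energy of the values `u n + D(n) + w` for almost all `n`, where `D` obeys the rule of Leibniz. -/

namespace Pool.Agent.Helper85.AE
open Finset Filter
open Pool.Agent.TH935.GF (En)

/-- a function with `D (m n) = m D n + n D m` for coprime `m`, `n`, of moderate growth, with `D p = c` for all large
primes `p` -/
structure Leib (D : ℕ → ℤ) (c : ℤ) : Prop where
  mul : ∀ m n : ℕ, Nat.Coprime m n → D (m * n) = m * D n + n * D m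
  growth : ∃ C : ℕ, ∀ m : ℕ, 1 ≤ m → |(D m : ℝ)| ≤ m * (1 + Real.log m) ^ C
  prime : ∃ P : ℕ, ∀ p : ℕ, P ≤ p → p.Prime → D p = c

theorem familyD {D : ℕ → ℤ} {c : ℤ} (hf : Leib D c) (hc : c ≠ 0) (u w₀ : ℤ) (C : ℕ)
    (ε : ℝ) (hε : 0 < ε) : ∃ h C₁ x₀ : ℕ, 1 ≤ h ∧ ∀ x : ℕ, x₀ ≤ x → ∃ N : Finset ℕ, N ⊆ Icc 1 x ∧
      (∃ E : Finset ℕ, (E.card : ℝ) ≤ ε * x ∧
        ∀ n ∈ Icc 1 x, n ∉ N → (n : ℝ) / Real.log x ^ C ≤ |((u * n + D n + w₀ : ℤ) : ℝ)| → n ∈ E) ∧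
      (∀ n ∈ N, |((u * n + D n + w₀ : ℤ) : ℝ)| ≤ x * Real.log x ^ C₁) ∧
      (En h (fun n : {n // n ∈ N} => u * (n.1 : ℤ) + D n.1 + w₀) : ℝ) * x ≤
        Real.log x ^ C₁ * (x : ℝ) ^ (2 * h) := by
  classical
  obtain ⟨τ, hτ0, hτ1, x₁, h2p⟩ := two_primes ε hε
  obtain ⟨C0, hC0⟩ := hf.growth
  obtain ⟨P₀, hP₀⟩ := hf.prime
  obtain ⟨κ, hκd⟩ : ∃ κ : ℤ, κ = c := ⟨_, rfl⟩
  have hκ : κ ≠ 0 := by rw [hκd]; exact hc
  obtain ⟨K₁, hK₁⟩ : ∃ K₁ : ℕ, K₁ = 64 * (0 : ℤ).natAbs + 132 * (1 : ℤ).natAbs + 1 := ⟨_, rfl⟩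
  obtain ⟨Dd, hDd⟩ : ∃ Dd : ℕ, Dd = C + C0 + 2 := ⟨_, rfl⟩
  obtain ⟨h, hh⟩ : ∃ h : ℕ, h = 12 + ⌈16 / τ⌉₊ := ⟨_, rfl⟩
  obtain ⟨C₁, hC₁⟩ : ∃ C₁ : ℕ, C₁ = 6 * h + 3 * Dd + 1 := ⟨_, rfl⟩
  -- constants
  obtain ⟨c1, hc1⟩ : ∃ c1 : ℝ, c1 = |(c : ℝ)| := ⟨_, rfl⟩
  obtain ⟨u1, hu1⟩ : ∃ u1 : ℝ, u1 = |(u : ℝ)| := ⟨_, rfl⟩
  obtain ⟨v1, hv1⟩ : ∃ v1 : ℝ, v1 = 1 := ⟨_, rfl⟩
  obtain ⟨w1, hw1⟩ : ∃ w1 : ℝ, w1 = |(w₀ : ℝ)| := ⟨_, rfl⟩
  have hc1n : 0 ≤ c1 := by rw [hc1]; exact abs_nonneg _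
  have hu1n : 0 ≤ u1 := by rw [hu1]; exact abs_nonneg _
  have hv1n : 0 ≤ v1 := by rw [hv1]; norm_num
  have hw1n : 0 ≤ w1 := by rw [hw1]; exact abs_nonneg _
  obtain ⟨n1, hn1⟩ := ev_log (64 + (u1 + v1 + w1) * 2 ^ C0 + 13 * (1048576 * (κ.natAbs : ℝ)) ^ 3)
  obtain ⟨n2, hn2⟩ := ev_pow (τ / 16) (by positivity) Dd 2
  obtain ⟨n3, hn3⟩ := ev_pow (τ / 2) (by positivity) 0 (16384 * K₁ + 1)
  obtain ⟨n4, hn4⟩ := ev_pow τ hτ0 0 (P₀ + 2)
  obtain ⟨n5, hn5⟩ := ev_pow τ hτ0 (C + C0 + 1) (2 * ((v1 * c1) * 2 ^ C0 * (2 + c1) + w1) + 1)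
  obtain ⟨n6, hn6⟩ := ev_pow (τ / 32) (by positivity) 0 2
  refine ⟨h, C₁, x₁ + n1 + n2 + n3 + n4 + n5 + n6 + 3, by omega, fun x hx => ?_⟩
  have hx3 : (3 : ℝ) ≤ x := by exact_mod_cast (by omega : 3 ≤ x)
  have hx0 : (0 : ℝ) < x := by linarith
  have g1 := hn1 x (by omega)
  have g2 := hn2 x (by omega)
  have g3 := hn3 x (by omega)
  have g4 := hn4 x (by omega)
  have g5 := hn5 x (by omega)
  have g6 := hn6 x (by omega)
  rw [pow_zero, mul_one] at g3 g4 g6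
  obtain ⟨L, hL⟩ : ∃ L, L = Real.log x := ⟨_, rfl⟩
  rw [← hL] at g1 g2 g5 ⊢
  have hp1 : 0 ≤ (u1 + v1 + w1) * 2 ^ C0 := by positivity
  have hp2 : 0 ≤ 13 * (1048576 * (κ.natAbs : ℝ)) ^ 3 := by positivity
  have hL64 : 64 ≤ L := by linarith
  have hL1 : 1 ≤ L := by linarith
  have hL0 : 0 < L := by linarith
  obtain ⟨z, hz⟩ : ∃ z : ℕ, z = ⌊(x : ℝ) ^ τ⌋₊ := ⟨_, rfl⟩
  have hz1 : (x : ℝ) ^ τ < z + 1 := by rw [hz]; exact Nat.lt_floor_add_one _
  have hzP : P₀ < z := by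
    have : ((P₀ : ℕ) : ℝ) < z := by linarith
    exact_mod_cast this
  have hz0 : (0 : ℝ) < z := by exact_mod_cast (by omega : 0 < z)
  obtain ⟨H, hH⟩ : ∃ H : ℕ, H = ⌈L ^ Dd⌉₊ := ⟨_, rfl⟩
  have hH1 : L ^ Dd ≤ H := by rw [hH]; exact Nat.le_ceil _
  have hLD1 : 1 ≤ L ^ Dd := one_le_pow₀ hL1
  have hH2 : (H : ℝ) ≤ 2 * L ^ Dd := by
    have : (H : ℝ) < L ^ Dd + 1 := by rw [hH]; exact Nat.ceil_lt_add_one (by positivity)
    linarith
  have hH0 : 1 ≤ H := by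
    have : (1 : ℝ) ≤ H := hLD1.trans hH1
    exact_mod_cast this
  -- the coefficients
  obtain ⟨A, hA⟩ : ∃ A : ℕ → ℤ, ∀ m, A m = u * m + D m := ⟨_, fun _ => rfl⟩
  obtain ⟨B, hB⟩ : ∃ B : ℕ → ℤ, ∀ m, B m = c * m := ⟨_, fun _ => rfl⟩
  obtain ⟨S, hS⟩ : ∃ S : ℕ → Prop, ∀ m, S m ↔ (|(A m : ℝ)| ≤ H * m ∧ (m : ℝ) ≤ H * |(A m : ℝ)|) := ⟨_, fun _ => Iff.rfl⟩
  obtain ⟨N, hN⟩ : ∃ N : Finset ℕ, N = (Icc 1 x).filter (fun n => ∃ Q P : ℕ, Q.Prime ∧ P.Prime ∧ Q ≠ P ∧ z < Q ∧ z < P ∧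
    Q * P ∣ n ∧ ¬ Q ∣ n / (Q * P) ∧ ¬ P ∣ n / (Q * P) ∧ S (n / (Q * P))) := ⟨_, rfl⟩
  -- the growth of f
  have hfL : ∀ m : ℕ, 1 ≤ m → m ≤ x → |(D m : ℝ)| ≤ m * (2 ^ C0 * L ^ C0) := by
    intro m hm1 hmx
    refine (hC0 m hm1).trans ?_
    apply mul_le_mul_of_nonneg_left _ (Nat.cast_nonneg _)
    rw [← mul_pow]
    have h1 : Real.log m ≤ L := by
      rw [hL]
      exact Real.log_le_log (by exact_mod_cast hm1) (by exact_mod_cast hmx)
    have h2 : 0 ≤ Real.log m := Real.log_nonneg (by exact_mod_cast hm1)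
    apply pow_le_pow_left₀ (by linarith)
    linarith
  -- the decomposition
  have hdec : ∀ n ∈ Icc 1 x, ∀ Q P : ℕ, Q.Prime → P.Prime → Q ≠ P → z < Q → z < P → Q * P ∣ n → ¬ Q ∣ n / (Q * P) →
      ¬ P ∣ n / (Q * P) → 1 ≤ n / (Q * P) ∧ n / (Q * P) * Q * P = n ∧
      u * (n : ℤ) + D n + w₀ = (A (n / (Q * P)) * Q + B (n / (Q * P))) * P +
        (B (n / (Q * P)) * Q + w₀) := by
    intro n hn Q P hQ hP hQP hzQ hzP hd hQn hPn
    rw [mem_Icc] at hn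
    obtain ⟨m, hm⟩ : ∃ m, m = n / (Q * P) := ⟨_, rfl⟩
    rw [← hm] at hQn hPn ⊢
    have e1 : m * Q * P = n := by
      rw [hm, mul_assoc]
      exact Nat.div_mul_cancel hd
    have hm1 : 1 ≤ m := by
      rcases Nat.eq_zero_or_pos m with h0 | h0
      · rw [h0] at e1
        omega
      · exact h0
    refine ⟨hm1, e1, ?_⟩
    have cop1 : Nat.Coprime m Q := ((Nat.Prime.coprime_iff_not_dvd hQ).2 hQn).symm
    have cop2 : Nat.Coprime (m * Q) P := by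
      apply Nat.Coprime.mul_left
      · exact ((Nat.Prime.coprime_iff_not_dvd hP).2 hPn).symm
      · exact (Nat.coprime_primes hQ hP).2 hQP
    have e3 := hP₀ Q (by omega) hQ
    have e4 := hP₀ P (by omega) hP
    have e2 : D n = (m * Q : ℕ) * c + P * (m * c + Q * D m) := by
      rw [← e1, hf.mul _ _ cop2, hf.mul _ _ cop1, e3, e4]
    rw [e2, hA, hB, ← e1]
    push_cast
    ring
  refine ⟨N, by rw [hN]; exact filter_subset _ _, ⟨(Icc 1 x).filter (fun n => ¬ TwoP z n), ?_, ?_⟩, ?_, ?_⟩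
  · have := h2p x (by omega)
    rw [← hz] at this
    convert this
  · intro n hn hnN hFn
    rw [mem_filter]
    refine ⟨hn, fun htw => hnN ?_⟩
    obtain ⟨Q, P, hQ, hP, hQP, hzQ, hzP', hd, hQn, hPn⟩ := htw
    rw [hN, mem_filter]
    refine ⟨hn, Q, P, hQ, hP, hQP, hzQ, hzP', hd, hQn, hPn, ?_⟩
    obtain ⟨hm1, e1, e2⟩ := hdec n hn Q P hQ hP hQP hzQ hzP' hd hQn hPn
    obtain ⟨m, hm⟩ : ∃ m, m = n / (Q * P) := ⟨_, rfl⟩
    rw [← hm] at hm1 e1 e2 ⊢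
    have hm0 : (1 : ℝ) ≤ m := by exact_mod_cast hm1
    have hQ0 : (z : ℝ) ≤ Q := by exact_mod_cast hzQ.le
    have hP0 : (z : ℝ) ≤ P := by exact_mod_cast hzP'.le
    have hQ1 : (1 : ℝ) ≤ Q := by exact_mod_cast hQ.one_lt.le
    have hP1 : (1 : ℝ) ≤ P := by exact_mod_cast hP.one_lt.le
    have hmx : m ≤ x := by
      have h1 : m * Q * P ≤ x := by rw [e1]; exact (mem_Icc.1 hn).2
      have h2 : m ≤ m * Q * P := by
        rw [mul_assoc]
        exact Nat.le_mul_of_pos_right m (Nat.mul_pos hQ.pos hP.pos)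
      omega
    have hfm := hfL m hm1 hmx
    have hone' : 1 ≤ 2 ^ C0 * L ^ C0 := one_le_mul_of_one_le_of_one_le (one_le_pow₀ (by norm_num)) (one_le_pow₀ hL1)
    have hBm : |(B m : ℝ)| ≤ v1 * c1 * (m * (2 ^ C0 * L ^ C0)) := by
      rw [hB]
      push_cast
      rw [abs_mul, ← hc1, hv1, one_mul, abs_of_nonneg (by linarith : (0 : ℝ) ≤ m)]
      apply mul_le_mul_of_nonneg_left _ hc1n
      exact le_mul_of_one_le_right (by linarith) hone'
    rw [hS]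
    constructor
    · rw [hA]
      push_cast
      have h1 : |(u : ℝ) * m + D m| ≤ u1 * m + v1 * |(D m : ℝ)| := by
        refine (abs_add_le _ _).trans ?_
        rw [abs_mul, ← hu1, hv1, one_mul, abs_of_nonneg (by linarith : (0 : ℝ) ≤ m)]
      refine h1.trans ?_
      have h2 : v1 * |(D m : ℝ)| ≤ v1 * (m * (2 ^ C0 * L ^ C0)) := mul_le_mul_of_nonneg_left hfm hv1n
      have h3 : u1 * m ≤ u1 * (m * (2 ^ C0 * L ^ C0)) := by
        apply mul_le_mul_of_nonneg_left _ hu1n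
        apply le_mul_of_one_le_right (by linarith)
        exact one_le_mul_of_one_le_of_one_le (one_le_pow₀ (by norm_num)) (one_le_pow₀ hL1)
      have h4 : (u1 + v1) * 2 ^ C0 ≤ L := by
        have : (u1 + v1) * 2 ^ C0 ≤ (u1 + v1 + w1) * 2 ^ C0 := mul_le_mul_of_nonneg_right (by linarith) (by positivity)
        linarith
      calc u1 * m + v1 * |(D m : ℝ)| ≤ ((u1 + v1) * 2 ^ C0) * L ^ C0 * m := by
            have : ((u1 + v1) * 2 ^ C0) * L ^ C0 * m = u1 * (m * (2 ^ C0 * L ^ C0)) + v1 * (m * (2 ^ C0 * L ^ C0)) := by ring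
            linarith
        _ ≤ L * L ^ C0 * m := by gcongr
        _ = L ^ (C0 + 1) * m := by ring
        _ ≤ L ^ Dd * m := by
            apply mul_le_mul_of_nonneg_right _ (by linarith)
            exact pow_le_pow_right₀ hL1 (by omega)
        _ ≤ H * m := mul_le_mul_of_nonneg_right hH1 (by linarith)
    · -- the lower bound
      rw [e2] at hFn
      push_cast at hFn
      have hn' : (n : ℝ) = m * (Q * P) := by
        rw [← e1]
        push_cast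
        ring
      rw [hn'] at hFn
      obtain ⟨b, hb⟩ : ∃ b : ℝ, b = v1 * c1 * (2 ^ C0 * L ^ C0) := ⟨_, rfl⟩
      have hb0 : 0 ≤ b := by rw [hb]; positivity
      have hBb : |(B m : ℝ)| ≤ b * m := by
        refine hBm.trans (le_of_eq ?_)
        rw [hb]
        ring
      have hQP0 : 0 < (Q : ℝ) * P := by positivity
      have h1 : |((A m : ℝ) * Q + B m) * P + (B m * Q + w₀)| ≤ |(A m : ℝ)| * (Q * P) +
          (b * m * (Q + P + c1) + w1 * m) := by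
        have e3 : ((A m : ℝ) * Q + B m) * P + (B m * Q + w₀) = A m * (Q * P) + (B m * (Q + P) + w₀) := by ring
        rw [e3]
        refine (abs_add_le _ _).trans ?_
        rw [abs_mul, abs_of_pos hQP0]
        apply add_le_add le_rfl
        refine (abs_add_le _ _).trans ?_
        apply add_le_add
        · rw [abs_mul]
          apply mul_le_mul hBb _ (abs_nonneg _) (by positivity)
          rw [abs_of_nonneg (by linarith)]
          linarith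
        · rw [← hw1]
          exact le_mul_of_one_le_right hw1n hm0
      have h2 : z * (Q + P + c1) ≤ (2 + c1) * ((Q : ℝ) * P) := by
        have a1 : (z : ℝ) * Q ≤ Q * P := by rw [mul_comm]; exact mul_le_mul_of_nonneg_left hP0 (by linarith)
        have a2 : (z : ℝ) * P ≤ Q * P := mul_le_mul_of_nonneg_right hQ0 (by linarith)
        have a3 : (z : ℝ) * c1 ≤ Q * P * c1 := by
          apply mul_le_mul_of_nonneg_right _ hc1n
          exact hQ0.trans (le_mul_of_one_le_right (by linarith) hP1)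
        linarith
      have h3 : (z : ℝ) ≤ Q * P := hQ0.trans (le_mul_of_one_le_right (by linarith) hP1)
      -- multiply by z
      have h4 : m * (Q * P) / L ^ C * z ≤ |(A m : ℝ)| * (Q * P) * z + m * (b * (2 + c1) + w1) * (Q * P) := by
        have := mul_le_mul_of_nonneg_right (hFn.trans h1) hz0.le
        refine this.trans ?_
        have a1 : b * m * (Q + P + c1) * z ≤ b * m * ((2 + c1) * (Q * P)) := by
          have := mul_le_mul_of_nonneg_left h2 (show 0 ≤ b * m by positivity)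
          linarith
        have a2 : w1 * m * z ≤ w1 * m * (Q * P) := mul_le_mul_of_nonneg_left h3 (by positivity)
        linarith
      have h5 : m / L ^ C * z ≤ |(A m : ℝ)| * z + m * (b * (2 + c1) + w1) := by
        have e4 : m * (Q * P) / L ^ C * z = m / L ^ C * z * ((Q : ℝ) * P) := by ring
        have e5 : |(A m : ℝ)| * (Q * P) * z + m * (b * (2 + c1) + w1) * (Q * P) =
          (|(A m : ℝ)| * z + m * (b * (2 + c1) + w1)) * (Q * P) := by ring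
        rw [e4, e5] at h4
        exact le_of_mul_le_mul_right h4 hQP0
      have h6 : (b * (2 + c1) + w1) * (2 * L ^ C) ≤ z := by
        have a1 : b * (2 + c1) + w1 ≤ ((v1 * c1) * 2 ^ C0 * (2 + c1) + w1) * L ^ C0 := by
          have : w1 ≤ w1 * L ^ C0 := le_mul_of_one_le_right hw1n (one_le_pow₀ hL1)
          rw [hb]
          linarith
        have a2 : (b * (2 + c1) + w1) * (2 * L ^ C) ≤ ((v1 * c1) * 2 ^ C0 * (2 + c1) + w1) * L ^ C0 * (2 * L ^ C) :=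
          mul_le_mul_of_nonneg_right a1 (by positivity)
        have a3 : ((v1 * c1) * 2 ^ C0 * (2 + c1) + w1) * L ^ C0 * (2 * L ^ C) =
          2 * ((v1 * c1) * 2 ^ C0 * (2 + c1) + w1) * L ^ (C + C0) := by ring
        have a4 : 2 * ((v1 * c1) * 2 ^ C0 * (2 + c1) + w1) * L ^ (C + C0) ≤
          2 * ((v1 * c1) * 2 ^ C0 * (2 + c1) + w1) * L ^ (C + C0 + 1) :=
          mul_le_mul_of_nonneg_left (pow_le_pow_right₀ hL1 (by omega)) (by positivity)
        have a5 : 1 ≤ L ^ (C + C0 + 1) := one_le_pow₀ hL1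
        linarith
      have h7 : m * z ≤ |(A m : ℝ)| * z * (2 * L ^ C) := by
        have a1 := mul_le_mul_of_nonneg_right h5 (show 0 ≤ 2 * L ^ C by positivity)
        have a2 : m / L ^ C * z * (2 * L ^ C) = 2 * (m * z) := by field_simp
        have a3 : m * (b * (2 + c1) + w1) * (2 * L ^ C) ≤ m * z := by
          rw [mul_assoc]
          exact mul_le_mul_of_nonneg_left h6 (by linarith)
        rw [a2, add_mul] at a1
        linarith
      have h8 : (m : ℝ) ≤ |(A m : ℝ)| * (2 * L ^ C) := by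
        have : (m : ℝ) * z ≤ |(A m : ℝ)| * (2 * L ^ C) * z := by linarith
        exact le_of_mul_le_mul_right this hz0
      refine h8.trans ?_
      rw [mul_comm]
      apply mul_le_mul_of_nonneg_right _ (abs_nonneg _)
      refine le_trans ?_ hH1
      calc 2 * L ^ C ≤ L * L ^ C := mul_le_mul_of_nonneg_right (by linarith) (by positivity)
        _ = L ^ (C + 1) := by ring
        _ ≤ L ^ Dd := pow_le_pow_right₀ hL1 (by omega)
  · intro n hn
    rw [hN, mem_filter, mem_Icc] at hn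
    obtain ⟨⟨hn1', hn2'⟩, -⟩ := hn
    have hfn := hfL n hn1' hn2'
    have hnx : (n : ℝ) ≤ x := by exact_mod_cast hn2'
    push_cast
    have h1 : |(u : ℝ) * n + D n + w₀| ≤ u1 * n + v1 * |(D n : ℝ)| + w1 := by
      refine (abs_add_le _ _).trans (add_le_add ((abs_add_le _ _).trans ?_) (le_of_eq hw1.symm))
      rw [abs_mul, ← hu1, hv1, one_mul, abs_of_nonneg (Nat.cast_nonneg n)]
    refine h1.trans ?_
    have hone : 1 ≤ 2 ^ C0 * L ^ C0 := one_le_mul_of_one_le_of_one_le (one_le_pow₀ (by norm_num)) (one_le_pow₀ hL1)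
    have h2 : v1 * |(D n : ℝ)| ≤ v1 * (x * (2 ^ C0 * L ^ C0)) := by
      apply mul_le_mul_of_nonneg_left _ hv1n
      exact hfn.trans (mul_le_mul_of_nonneg_right hnx (by positivity))
    have h3 : u1 * n ≤ u1 * (x * (2 ^ C0 * L ^ C0)) := by
      apply mul_le_mul_of_nonneg_left _ hu1n
      exact hnx.trans (le_mul_of_one_le_right hx0.le hone)
    have h4 : w1 ≤ w1 * (x * (2 ^ C0 * L ^ C0)) := by
      apply le_mul_of_one_le_right hw1n
      exact one_le_mul_of_one_le_of_one_le (by linarith) hone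
    have h5 : (u1 + v1 + w1) * 2 ^ C0 ≤ L := by linarith
    calc u1 * n + v1 * |(D n : ℝ)| + w1 ≤ ((u1 + v1 + w1) * 2 ^ C0) * (L ^ C0 * x) := by
          have : ((u1 + v1 + w1) * 2 ^ C0) * (L ^ C0 * x) = u1 * (x * (2 ^ C0 * L ^ C0)) + v1 * (x * (2 ^ C0 * L ^ C0)) +
            w1 * (x * (2 ^ C0 * L ^ C0)) := by ring
          linarith
      _ ≤ L * (L ^ C0 * x) := mul_le_mul_of_nonneg_right h5 (by positivity)
      _ = x * L ^ (C0 + 1) := by ring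
      _ ≤ x * L ^ C₁ := by
          apply mul_le_mul_of_nonneg_left _ hx0.le
          exact pow_le_pow_right₀ hL1 (by omega)
  · -- the energy
    have hNP : ∀ n : {n // n ∈ N}, ∃ y : Σ _ : ℕ × ℕ, ℕ, y ∈ TR x z S ∧ y.1.1 * y.1.2 * y.2 = n.1 ∧
        u * (n.1 : ℤ) + D n.1 + w₀ = (A y.1.1 * y.1.2 + B y.1.1) * y.2 + (B y.1.1 * y.1.2 + w₀) := by
      rintro ⟨n, hn⟩
      rw [hN, mem_filter] at hn
      obtain ⟨hnx, Q, P, hQ, hP, hQP, hzQ, hzP', hd, hQn, hPn, hSm⟩ := hn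
      obtain ⟨hm1, e1, e2⟩ := hdec n hnx Q P hQ hP hQP hzQ hzP' hd hQn hPn
      refine ⟨⟨(n / (Q * P), Q), P⟩, ?_, e1, e2⟩
      rw [mem_Icc] at hnx
      obtain ⟨m, hm⟩ : ∃ m, m = n / (Q * P) := ⟨_, rfl⟩
      rw [← hm] at hm1 e1 hSm ⊢
      rw [mem_TR]
      simp only
      rw [mem_PR, mem_Icc, mem_Icc]
      simp only
      have hle : m * Q * P ≤ x := by rw [e1]; exact hnx.2
      have hmQ : 0 < m * Q := Nat.mul_pos hm1 hQ.pos
      have a1 : m * Q ≤ x := by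
        have := Nat.le_mul_of_pos_right (m * Q) hP.pos
        omega
      have a2 : m ≤ m * Q := Nat.le_mul_of_pos_right m hQ.pos
      have a3 : Q ≤ m * Q := Nat.le_mul_of_pos_left Q hm1
      refine ⟨⟨⟨⟨hm1, by omega⟩, hQ.one_lt.le, by omega⟩, hzQ.le, ?_, hSm⟩, hzP'.le, ?_⟩
      · exact (Nat.mul_le_mul_left _ hzP'.le).trans hle
      · rw [Nat.lt_succ_iff, Nat.le_div_iff_mul_le hmQ, mul_comm]
        exact hle
    choose g hg1 hg2 hg3 using hNP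
    have hVm0 : 0 < (x : ℝ) ^ (τ / 16) := by positivity
    obtain ⟨Vm, hVm⟩ : ∃ Vm : ℕ, Vm = ⌊(x : ℝ) ^ (τ / 16)⌋₊ := ⟨_, rfl⟩
    have hVm1 : (Vm : ℝ) ≤ (x : ℝ) ^ (τ / 16) := by rw [hVm]; exact Nat.floor_le hVm0.le
    have hsq : (x : ℝ) ^ (τ / 16) = (x : ℝ) ^ (τ / 32) * (x : ℝ) ^ (τ / 32) := by
      rw [← Real.rpow_add hx0]
      congr 1
      ring
    have hVm2 : (x : ℝ) ^ (τ / 32) ≤ Vm := by
      have h1 : (x : ℝ) ^ (τ / 16) < Vm + 1 := by rw [hVm]; exact Nat.lt_floor_add_one _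
      have h2 : 2 * (x : ℝ) ^ (τ / 32) ≤ (x : ℝ) ^ (τ / 16) := by
        rw [hsq]
        exact mul_le_mul_of_nonneg_right g6 (by positivity)
      linarith
    have hVm3 : 1 ≤ Vm := by
      have : (1 : ℝ) ≤ Vm := by linarith
      exact_mod_cast this
    have key := energy_TR κ 0 1 hκ K₁ (le_of_eq hK₁.symm) A B S H hH0 (by
        intro m _
        rw [hκd, hA, hB]
        ring) (fun m hm => ((hS m).1 hm).1) (fun m hm => ((hS m).1 hm).2) x z (by omega) (by omega) Vm h hVm3 (by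
        have e1 : (x : ℝ) ^ (τ / 16) * ((x : ℝ) ^ (τ / 16)) ^ 7 = (x : ℝ) ^ (τ / 2) := by
          rw [← Real.rpow_natCast, ← Real.rpow_mul hx0.le, ← Real.rpow_add hx0]
          congr 1
          push_cast
          ring
        have e2 : (x : ℝ) ^ (τ / 2) * (x : ℝ) ^ (τ / 2) = (x : ℝ) ^ τ := by
          rw [← Real.rpow_add hx0]
          congr 1
          ring
        have h1 : (1 : ℝ) ≤ (x : ℝ) ^ (τ / 2) := Real.one_le_rpow (by linarith) (by positivity)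
        have h2 : (16384 * K₁ * H * Vm ^ 7 : ℝ) ≤ 16384 * K₁ * (x : ℝ) ^ (τ / 2) := by
          have a1 : (H : ℝ) ≤ (x : ℝ) ^ (τ / 16) := hH2.trans g2
          have a2 : (Vm : ℝ) ^ 7 ≤ ((x : ℝ) ^ (τ / 16)) ^ 7 := pow_le_pow_left₀ (Nat.cast_nonneg _) hVm1 7
          calc (16384 * K₁ * H * Vm ^ 7 : ℝ) = 16384 * K₁ * (H * Vm ^ 7) := by ring
            _ ≤ 16384 * K₁ * ((x : ℝ) ^ (τ / 16) * ((x : ℝ) ^ (τ / 16)) ^ 7) := by gcongr
            _ = _ := by rw [e1]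
        have h3 : (16384 * K₁ * H * Vm ^ 7 : ℝ) ≤ z := by
          have a1 : (16384 * K₁ + 1 : ℝ) * (x : ℝ) ^ (τ / 2) ≤ (x : ℝ) ^ τ := by
            rw [← e2]
            exact mul_le_mul_of_nonneg_right g3 (by positivity)
          linarith
        exact_mod_cast h3) (by omega) (by
        have h1 : (x : ℝ) ≤ ((x : ℝ) ^ (τ / 32)) ^ (2 * h) := by
          rw [← Real.rpow_natCast, ← Real.rpow_mul hx0.le]
          have h2 : (1 : ℝ) ≤ τ / 32 * ((2 * h : ℕ) : ℝ) := by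
            have h3 : 16 / τ ≤ (h : ℝ) := by
              rw [hh]
              push_cast
              have := Nat.le_ceil (16 / τ)
              linarith
            rw [div_le_iff₀ hτ0] at h3
            push_cast
            linarith
          calc (x : ℝ) = (x : ℝ) ^ (1 : ℝ) := (Real.rpow_one _).symm
            _ ≤ _ := Real.rpow_le_rpow_of_exponent_le (by linarith) h2
        have h2 : (x : ℝ) ≤ (Vm : ℝ) ^ (2 * h) := h1.trans (pow_le_pow_left₀ (by positivity) hVm2 _)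
        exact_mod_cast h2) (fun p => B p.1 * p.2 + w₀)
      (fun n : {n // n ∈ N} => u * (n.1 : ℤ) + D n.1 + w₀) g (by
        intro i j hij
        apply Subtype.ext
        rw [← hg2 i, ← hg2 j, hij]) hg1 (by
        intro i
        exact hg3 i)
    rw [mul_comm, ← hL] at key
    refine key.trans ?_
    have h1 : 12 * (524288 * (κ.natAbs : ℝ) * H) ^ 3 + 1 ≤ L ^ (3 * Dd + 1) := by
      have hκ1 : (1 : ℝ) ≤ κ.natAbs := by
        have : 1 ≤ κ.natAbs := Int.natAbs_pos.2 hκ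
        exact_mod_cast this
      have a1 : (524288 * (κ.natAbs : ℝ) * H) ^ 3 ≤ (524288 * κ.natAbs * (2 * L ^ Dd)) ^ 3 := by gcongr
      have a2 : (524288 * (κ.natAbs : ℝ) * (2 * L ^ Dd)) ^ 3 = (1048576 * κ.natAbs) ^ 3 * L ^ (3 * Dd) := by ring
      have a3 : 1 ≤ (1048576 * (κ.natAbs : ℝ)) ^ 3 * L ^ (3 * Dd) :=
        one_le_mul_of_one_le_of_one_le (one_le_pow₀ (by linarith)) (one_le_pow₀ hL1)
      have a4 : 13 * (1048576 * (κ.natAbs : ℝ)) ^ 3 ≤ L := by linarith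
      calc 12 * (524288 * (κ.natAbs : ℝ) * H) ^ 3 + 1 ≤ (13 * (1048576 * κ.natAbs) ^ 3) * L ^ (3 * Dd) := by linarith
        _ ≤ L * L ^ (3 * Dd) := mul_le_mul_of_nonneg_right a4 (by positivity)
        _ = L ^ (3 * Dd + 1) := by ring
    have h2 : (16 * x * (1 + L) ^ 2) ^ (2 * h) ≤ L ^ (6 * h) * (x : ℝ) ^ (2 * h) := by
      have a1 : 16 * x * (1 + L) ^ 2 ≤ L ^ 3 * x := by
        have : 16 * (1 + L) ^ 2 ≤ L ^ 3 := by nlinarith [sq_nonneg L]
        calc 16 * x * (1 + L) ^ 2 = (16 * (1 + L) ^ 2) * x := by ring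
          _ ≤ _ := mul_le_mul_of_nonneg_right this hx0.le
      refine (pow_le_pow_left₀ (by positivity) a1 _).trans (le_of_eq ?_)
      rw [mul_pow, ← pow_mul]
      congr 2
      ring
    calc (12 * (524288 * (κ.natAbs : ℝ) * H) ^ 3 + 1) * (16 * x * (1 + L) ^ 2) ^ (2 * h) ≤
          L ^ (3 * Dd + 1) * (L ^ (6 * h) * (x : ℝ) ^ (2 * h)) := mul_le_mul h1 h2 (by positivity) (by positivity)
      _ = L ^ C₁ * (x : ℝ) ^ (2 * h) := by
          rw [hC₁]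
          ring

end Pool.Agent.Helper85.AE
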