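import Pool.Agent.Helper85.AE.Arith

set_option autoImplicit false

/-! Almost all integers have a small prime factor; the sizes of the aliquot sum and of the cototient. -/

namespace Pool.Agent.Helper85.AE
open Finset Filter Topology

open Classical in
/-- few integers have no small prime factor -/
theorem few_rough (ε : ℝ) (hε : 0 < ε) : ∃ z N₀ : ℕ, ∀ N : ℕ, N₀ ≤ N →
    (((Icc 1 N).filter (fun m => ∀ p : ℕ, p.Prime → p ≤ z → ¬ p ∣ m)).card : ℝ) ≤ ε * N := by
  have hdiv : Tendsto (fun n : ℕ => ∑ p ∈ range n, Set.indicator {p : ℕ | p.Prime} (fun n : ℕ => (1 : ℝ) / n) p) atTop atTop := by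
    have h1 := not_summable_one_div_on_primes
    rwa [not_summable_iff_tendsto_nat_atTop_of_nonneg] at h1
    intro n
    apply Set.indicator_nonneg
    intro x _
    positivity
  have h2 := hdiv.eventually_ge_atTop (-Real.log (ε / 2))
  rw [eventually_atTop] at h2
  obtain ⟨z, hz⟩ := h2
  have hz := hz z le_rfl
  obtain ⟨S, hS⟩ : ∃ S : Finset ℕ, S = (range z).filter Nat.Prime := ⟨_, rfl⟩
  obtain ⟨P, hP⟩ : ∃ P : ℕ, P = ∏ p ∈ S, p := ⟨_, rfl⟩
  have hSp : ∀ p ∈ S, p.Prime := fun p hp => by rw [hS, mem_filter] at hp; exact hp.2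
  have hP0 : 0 < P := by
    rw [hP]
    exact prod_pos fun p hp => (hSp p hp).pos
  have hPf : P.primeFactors = S := by
    rw [hP]
    exact Nat.primeFactors_prod (fun p hp => hSp p hp)
  have hφ : (Nat.totient P : ℝ) ≤ ε / 2 * P := by
    have h3 := Nat.totient_eq_mul_prod_factors P
    rw [hPf] at h3
    have h4 : (Nat.totient P : ℝ) = P * ∏ p ∈ S, (1 - (p : ℝ)⁻¹) := by
      have := congrArg (fun q : ℚ => (q : ℝ)) h3
      push_cast at this
      exact this
    rw [h4, mul_comm]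
    apply mul_le_mul_of_nonneg_right _ (Nat.cast_nonneg _)
    have h5 : ∏ p ∈ S, (1 - (p : ℝ)⁻¹) ≤ ∏ p ∈ S, Real.exp (-(p : ℝ)⁻¹) := by
      apply Finset.prod_le_prod
      · intro p hp
        have : (1 : ℝ) ≤ p := by exact_mod_cast (hSp p hp).one_lt.le
        have := inv_le_one_of_one_le₀ this
        linarith
      · intro p _
        have := Real.add_one_le_exp (-(p : ℝ)⁻¹)
        linarith
    refine h5.trans ?_
    rw [← Real.exp_sum, sum_neg_distrib]
    have h6 : ∑ p ∈ S, (p : ℝ)⁻¹ = ∑ p ∈ range z, Set.indicator {p : ℕ | p.Prime} (fun n : ℕ => (1 : ℝ) / n) p := by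
      rw [hS, sum_filter]
      apply sum_congr rfl
      intro p _
      rw [Set.indicator_apply]
      simp only [Set.mem_ofPred_eq, one_div]
    rw [h6]
    have h7 : Real.exp (-∑ p ∈ range z, Set.indicator {p : ℕ | p.Prime} (fun n : ℕ => (1 : ℝ) / n) p) ≤
        Real.exp (Real.log (ε / 2)) := Real.exp_le_exp.2 (by linarith)
    rwa [Real.exp_log (by positivity)] at h7
  obtain ⟨N₀, hN₀⟩ := exists_nat_gt (2 * P / ε)
  refine ⟨z, N₀, fun N hN => ?_⟩
  have h8 := Nat.Ico_filter_coprime_le 1 N hP0.ne'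
  have hsub : (Icc 1 N).filter (fun m => ∀ p : ℕ, p.Prime → p ≤ z → ¬ p ∣ m) ⊆ (Ico 1 (1 + N)).filter (fun m => P.Coprime m) := by
    intro m hm
    rw [mem_filter, mem_Icc] at hm
    rw [mem_filter, mem_Ico]
    refine ⟨⟨hm.1.1, by omega⟩, ?_⟩
    rw [hP]
    apply Nat.Coprime.prod_left
    intro p hp
    have hp' := hp
    rw [hS, mem_filter, mem_range] at hp'
    exact (Nat.Prime.coprime_iff_not_dvd hp'.2).2 (hm.2 p hp'.2 hp'.1.le)
  have h9 : ((((Icc 1 N).filter (fun m => ∀ p : ℕ, p.Prime → p ≤ z → ¬ p ∣ m)).card : ℕ) : ℝ) ≤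
      Nat.totient P * ((N / P : ℕ) + 1) := by
    exact_mod_cast (card_le_card hsub).trans h8
  refine h9.trans ?_
  have hP0r : (0 : ℝ) < P := by exact_mod_cast hP0
  have h10 : ((N / P : ℕ) : ℝ) ≤ N / P := Nat.cast_div_le
  have hNr : 2 * P / ε ≤ N := hN₀.le.trans (by exact_mod_cast hN)
  rw [div_le_iff₀ hε] at hNr
  calc (Nat.totient P : ℝ) * ((N / P : ℕ) + 1) = Nat.totient P * (N / P : ℕ) + Nat.totient P := by ring
    _ ≤ ε / 2 * P * (N / P) + P := by
        apply add_le_add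
        · exact mul_le_mul hφ h10 (Nat.cast_nonneg _) (by positivity)
        · exact_mod_cast Nat.totient_le P
    _ = ε / 2 * N + P := by field_simp
    _ ≤ ε * N := by linarith

lemma aliquot_ge {m p z : ℕ} (hm : 1 ≤ m) (hp : p.Prime) (hpm : p ∣ m) (hpz : p ≤ z) :
    (m : ℝ) / z ≤ ((∑ d ∈ m.divisors, d : ℕ) : ℝ) - m := by
  obtain ⟨k, hk⟩ := hpm
  have hk0 : 0 < k := by
    rcases Nat.eq_zero_or_pos k with h | h
    · rw [h, mul_zero] at hk
      omega
    · exact h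
  have hkm : k < m := by
    rw [hk]
    exact (Nat.lt_mul_iff_one_lt_left hk0).2 hp.one_lt
  have h1 : ({k, m} : Finset ℕ) ⊆ m.divisors := by
    intro d hd
    rw [mem_insert, mem_singleton] at hd
    rw [Nat.mem_divisors]
    rcases hd with rfl | rfl
    · exact ⟨⟨p, by rw [hk]; ring⟩, by omega⟩
    · exact ⟨dvd_refl _, by omega⟩
  have h2 : k + m ≤ ∑ d ∈ m.divisors, d := by
    calc k + m = ∑ d ∈ ({k, m} : Finset ℕ), d := by rw [sum_pair (by omega)]
      _ ≤ _ := sum_le_sum_of_subset h1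
  have h3 : ((k : ℕ) : ℝ) + m ≤ ((∑ d ∈ m.divisors, d : ℕ) : ℝ) := by exact_mod_cast h2
  have hz0 : (0 : ℝ) < z := by exact_mod_cast lt_of_lt_of_le hp.pos hpz
  have h4 : (m : ℝ) / z ≤ k := by
    rw [div_le_iff₀ hz0, hk]
    push_cast
    rw [mul_comm]
    exact mul_le_mul_of_nonneg_left (by exact_mod_cast hpz) (Nat.cast_nonneg _)
  linarith

lemma cototient_ge {m p z : ℕ} (hm : 1 ≤ m) (hp : p.Prime) (hpm : p ∣ m) (hpz : p ≤ z) :
    (m : ℝ) / z ≤ (m : ℝ) - Nat.totient m := by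
  classical
  have h3 := Nat.totient_eq_mul_prod_factors m
  have h4 : (Nat.totient m : ℝ) = m * ∏ p ∈ m.primeFactors, (1 - (p : ℝ)⁻¹) := by
    have := congrArg (fun q : ℚ => (q : ℝ)) h3
    push_cast at this
    exact this
  have hpf : p ∈ m.primeFactors := Nat.mem_primeFactors.2 ⟨hp, hpm, by omega⟩
  have hp0 : (0 : ℝ) < p := by exact_mod_cast hp.pos
  have hz0 : (0 : ℝ) < z := by exact_mod_cast lt_of_lt_of_le hp.pos hpz
  have hm0 : (0 : ℝ) ≤ m := Nat.cast_nonneg _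
  have h5 : ∏ p ∈ m.primeFactors, (1 - (p : ℝ)⁻¹) ≤ 1 - (p : ℝ)⁻¹ := by
    rw [← mul_prod_erase _ _ hpf]
    have a1 : ∀ q ∈ m.primeFactors.erase p, 0 ≤ 1 - (q : ℝ)⁻¹ ∧ 1 - (q : ℝ)⁻¹ ≤ 1 := by
      intro q hq
      have : (1 : ℝ) ≤ q := by exact_mod_cast (Nat.prime_of_mem_primeFactors (mem_of_mem_erase hq)).one_lt.le
      have h := inv_le_one_of_one_le₀ this
      have h' : 0 ≤ (q : ℝ)⁻¹ := by positivity
      exact ⟨by linarith, by linarith⟩
    have a2 : ∏ q ∈ m.primeFactors.erase p, (1 - (q : ℝ)⁻¹) ≤ 1 :=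
      prod_le_one (fun q hq => (a1 q hq).1) (fun q hq => (a1 q hq).2)
    have a3 : 0 ≤ 1 - (p : ℝ)⁻¹ := by
      have : (1 : ℝ) ≤ p := by exact_mod_cast hp.one_lt.le
      have := inv_le_one_of_one_le₀ this
      linarith
    calc (1 - (p : ℝ)⁻¹) * ∏ q ∈ m.primeFactors.erase p, (1 - (q : ℝ)⁻¹) ≤ (1 - (p : ℝ)⁻¹) * 1 :=
          mul_le_mul_of_nonneg_left a2 a3
      _ = _ := mul_one _
  have h6 : (Nat.totient m : ℝ) ≤ m * (1 - (p : ℝ)⁻¹) := by
    rw [h4]
    exact mul_le_mul_of_nonneg_left h5 hm0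
  have h7 : (z : ℝ)⁻¹ ≤ (p : ℝ)⁻¹ := inv_anti₀ hp0 (by exact_mod_cast hpz)
  have h8 : (m : ℝ) * (z : ℝ)⁻¹ ≤ m * (p : ℝ)⁻¹ := mul_le_mul_of_nonneg_left h7 hm0
  rw [div_eq_mul_inv]
  linarith

open Classical in
/-- the sum of the divisors is rarely large -/
lemma sigma_rarely (N : ℕ) (B : ℝ) (hB : 0 < B) :
    (((Icc 1 N).filter (fun m => B * N < ((∑ d ∈ m.divisors, d : ℕ) : ℝ))).card : ℝ) ≤ N / B := by
  rcases Nat.eq_zero_or_pos N with rfl | hN
  · simp
  have hN0 : (0 : ℝ) < N := by exact_mod_cast hN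
  have hsum : ∑ m ∈ Icc 1 N, ((∑ d ∈ m.divisors, d : ℕ) : ℝ) ≤ N * N := by
    have h1 : ∑ m ∈ Icc 1 N, (∑ d ∈ m.divisors, d) ≤ N * N := by
      calc ∑ m ∈ Icc 1 N, (∑ d ∈ m.divisors, d) = ∑ m ∈ Icc 1 N, ∑ d ∈ Icc 1 N, if d ∣ m then d else 0 := by
            apply sum_congr rfl
            intro m hm
            rw [mem_Icc] at hm
            rw [← sum_filter]
            apply sum_congr _ fun _ _ => rfl
            ext d
            rw [Nat.mem_divisors, mem_filter, mem_Icc]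
            constructor
            · rintro ⟨h2, h3⟩
              exact ⟨⟨Nat.pos_of_dvd_of_pos h2 (by omega), (Nat.le_of_dvd (by omega) h2).trans hm.2⟩, h2⟩
            · rintro ⟨_, h2⟩
              exact ⟨h2, by omega⟩
        _ = ∑ d ∈ Icc 1 N, ∑ m ∈ Icc 1 N, if d ∣ m then d else 0 := sum_comm
        _ ≤ ∑ _d ∈ Icc 1 N, N := by
            apply sum_le_sum
            intro d _
            rw [← sum_filter, sum_const, smul_eq_mul]
            have : ((Icc 1 N).filter (fun m => d ∣ m)).card = N / d := by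
              rw [← Nat.Ioc_filter_dvd_card_eq_div N d]
              rfl
            rw [this]
            exact Nat.div_mul_le_self N d
        _ = N * N := by rw [sum_const, Nat.card_Icc, Nat.add_sub_cancel, smul_eq_mul]
    exact_mod_cast h1
  rw [le_div_iff₀ hB]
  have h2 : (((Icc 1 N).filter (fun m => B * N < ((∑ d ∈ m.divisors, d : ℕ) : ℝ))).card : ℝ) * (B * N) ≤ N * N := by
    refine le_trans ?_ hsum
    rw [← nsmul_eq_mul]
    refine le_trans (card_nsmul_le_sum _ (fun m => ((∑ d ∈ m.divisors, d : ℕ) : ℝ)) _ ?_) ?_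
    · intro m hm
      exact (mem_filter.1 hm).2.le
    · apply sum_le_sum_of_subset_of_nonneg (filter_subset _ _)
      intro m _ _
      exact Nat.cast_nonneg _
  have h3 : (((Icc 1 N).filter (fun m => B * N < ((∑ d ∈ m.divisors, d : ℕ) : ℝ))).card : ℝ) * B * N ≤ N * N := by linarith
  exact le_of_mul_le_mul_right h3 hN0

end Pool.Agent.Helper85.AE
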