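import Pool.Agent.N469.PT.Ws
import Pool.Agent.TH935.LF3

/-! The one shift estimate for the values of a family of nearly minimal additive energy. -/

set_option autoImplicit false

namespace Pool.Agent.Helper85.AE
open Finset
open Pool.Agent.H373R2.T7
open Pool.Agent.N469.PT (OneLaw)

/-- the law of `s m` for a random `m ≤ x`, for a family of nearly minimal additive energy -/
def Fc (h B C : ℕ) (N : ℕ) (Ω : Finset ℕ) (p : ℕ → ℝ) : Prop :=
  ∃ (x : ℕ) (s : ℕ → ℕ), 1 ≤ x ∧ (∀ m ∈ Icc 1 x, s m ≤ B * N) ∧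
    (energy h x (fun m => (s m : ℤ)) : ℝ) * N ≤ Real.log N ^ C * (x : ℝ) ^ (2 * h) ∧
    Ω = (Icc 1 x).image s ∧ p = fun v => (((Icc 1 x).filter (fun m => s m = v)).card : ℝ) / x

lemma fiber_le (h x : ℕ) (s : ℕ → ℤ) (v : ℤ) : ((Icc 1 x).filter (fun m => s m = v)).card ^ (2 * h) ≤ energy h x s := by
  classical
  obtain ⟨T, hT⟩ : ∃ T, T = (Icc 1 x).filter (fun m => s m = v) := ⟨_, rfl⟩
  rw [← hT]
  have h1 : ((Fintype.piFinset fun _ : Fin h => T) ×ˢ (Fintype.piFinset fun _ : Fin h => T)).card = T.card ^ (2 * h) := by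
    rw [card_product, Fintype.card_piFinset]
    simp only [prod_const, card_univ, Fintype.card_fin]
    rw [← pow_add]
    congr 1
    ring
  rw [← h1]
  unfold energy
  apply card_le_card
  intro q hq
  rw [mem_product, Fintype.mem_piFinset, Fintype.mem_piFinset] at hq
  rw [mem_filter, mem_product, Fintype.mem_piFinset, Fintype.mem_piFinset]
  have hTm : ∀ m ∈ T, m ∈ Icc 1 x ∧ s m = v := by
    intro m hm
    rw [hT, mem_filter] at hm
    exact hm
  refine ⟨⟨fun i => (hTm _ (hq.1 i)).1, fun i => (hTm _ (hq.2 i)).1⟩, ?_⟩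
  rw [sum_congr rfl (fun i _ => (hTm _ (hq.1 i)).2), sum_congr rfl (fun i _ => (hTm _ (hq.2 i)).2)]

/-- averages over the law are averages over the family -/
lemma law_sum (x : ℕ) (s : ℕ → ℕ) (f : ℕ → ℝ) :
    ∑ v ∈ (Icc 1 x).image s, (((Icc 1 x).filter (fun m => s m = v)).card : ℝ) / x * f v =
      (∑ m ∈ Icc 1 x, f (s m)) / x := by
  classical
  rw [← sum_fiberwise_of_maps_to (g := s) (t := (Icc 1 x).image s) (fun m hm => mem_image_of_mem s hm), sum_div]
  apply sum_congr rfl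
  intro v _
  rw [sum_congr rfl (g := fun _ => f v) (fun m hm => by rw [(mem_filter.1 hm).2]), sum_const, nsmul_eq_mul]
  ring

theorem fc_one (h B C Bc U : ℕ) : OneLaw (Fc h B C) 1 Bc U := by
  classical
  obtain ⟨B0, hmom⟩ := Pool.Agent.TH935.LF.lin_mom h (C + 1) (U + 1) 0
  refine ⟨B + Bc, B0 + 1, fun E => ?_⟩
  obtain ⟨n0, h0⟩ := hmom E
  obtain ⟨n1, h1⟩ := ev_L' (B + Bc + 1 + 2 ^ B0 + 2)
  obtain ⟨n2, h2⟩ := ev_log' (C + 2 * h * U + 1) 1
  refine ⟨n0 + n1 + n2 + 3, fun N hN Ω p hp cc hcc => ?_⟩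
  obtain ⟨x, s, hx, hs, hen, rfl, rfl⟩ := hp
  have b1 := h1 N (by omega)
  have b2 := h2 N (by omega)
  obtain ⟨L, hL⟩ : ∃ L, L = Real.log (N : ℝ) := ⟨_, rfl⟩
  rw [← hL] at b1 b2 hen ⊢
  have hp2 : (0 : ℝ) < 2 ^ B0 := by positivity
  have hBn : (0 : ℝ) ≤ B := Nat.cast_nonneg _
  have hBcn : (0 : ℝ) ≤ Bc := Nat.cast_nonneg _
  have hL2 : 2 ≤ L := by linarith
  have hL1 : 1 ≤ L := by linarith
  have hL0 : 0 < L := by linarith
  have hN3 : (3 : ℝ) ≤ N := by exact_mod_cast (by omega : 3 ≤ N)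
  have hN0 : (0 : ℝ) < N := by linarith
  have hx0 : (0 : ℝ) < x := by exact_mod_cast hx
  refine ⟨fun v _ => by positivity, ?_, ?_, ?_, ?_⟩
  · have := law_sum x s (fun _ => 1)
    simp only [mul_one] at this
    rw [this, sum_const, Nat.card_Icc, Nat.add_sub_cancel, nsmul_eq_mul, mul_one, div_self hx0.ne']
  · intro v _
    dsimp only
    by_contra hcon
    push Not at hcon
    have h3 := fiber_le h x (fun m => (s m : ℤ)) (v : ℤ)
    have h4 : ((Icc 1 x).filter (fun m => ((s m : ℕ) : ℤ) = (v : ℤ))) = (Icc 1 x).filter (fun m => s m = v) := by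
      apply filter_congr
      intro m _
      norm_cast
    rw [h4] at h3
    have h5 : (1 / L ^ U) ^ (2 * h) ≤ ((((Icc 1 x).filter (fun m => s m = v)).card : ℝ) / x) ^ (2 * h) :=
      pow_le_pow_left₀ (by positivity) hcon.le _
    have h6 : ((((Icc 1 x).filter (fun m => s m = v)).card : ℝ)) ^ (2 * h) ≤ energy h x (fun m => (s m : ℤ)) := by
      exact_mod_cast h3
    have h7 : ((((Icc 1 x).filter (fun m => s m = v)).card : ℝ)) ^ (2 * h) * N ≤ L ^ C * (x : ℝ) ^ (2 * h) :=
      (mul_le_mul_of_nonneg_right h6 hN0.le).trans hen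
    rw [div_pow, div_pow, one_pow, ← pow_mul, div_le_div_iff₀ (by positivity) (by positivity), one_mul] at h5
    have h8 : (x : ℝ) ^ (2 * h) * N ≤ (x : ℝ) ^ (2 * h) * (L ^ C * L ^ (U * (2 * h))) := by
      calc (x : ℝ) ^ (2 * h) * N ≤ ((((Icc 1 x).filter (fun m => s m = v)).card : ℝ) ^ (2 * h) * L ^ (U * (2 * h))) * N :=
            mul_le_mul_of_nonneg_right h5 hN0.le
        _ = (((((Icc 1 x).filter (fun m => s m = v)).card : ℝ)) ^ (2 * h) * N) * L ^ (U * (2 * h)) := by ring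
        _ ≤ (L ^ C * (x : ℝ) ^ (2 * h)) * L ^ (U * (2 * h)) := mul_le_mul_of_nonneg_right h7 (by positivity)
        _ = _ := by ring
    have h9 : (N : ℝ) ≤ L ^ C * L ^ (U * (2 * h)) := le_of_mul_le_mul_left h8 (by positivity)
    rw [← pow_add] at h9
    have h10 : L ^ (C + U * (2 * h)) * L ≤ Real.sqrt N := by
      rw [← pow_succ]
      refine le_trans (le_of_eq ?_) b2
      rw [one_mul]
      congr 1
      ring
    have h11 : Real.sqrt N ≤ N := by
      rw [Real.sqrt_le_left hN0.le]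
      nlinarith
    have h12 : 0 < L ^ (C + U * (2 * h)) := by positivity
    nlinarith
  · intro v hv
    rw [mem_image] at hv
    obtain ⟨m, hm, rfl⟩ := hv
    have := hs m hm
    nlinarith
  · intro z hz1 hz2 K hK G hG
    rw [law_sum x s (fun v => |∑ n ∈ Icc 1 N, G n * (lamI ((n : ℤ) + ((cc + 1 * v : ℕ) : ℤ)) -
      lamzI z ((n : ℤ) + ((cc + 1 * v : ℕ) : ℤ)))|)]
    obtain ⟨N', hN'⟩ : ∃ N' : ℕ, N' = (B + Bc + 1) * N := ⟨_, rfl⟩
    have hN'r : (N' : ℝ) = (B + Bc + 1) * N := by rw [hN']; push_cast; ring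
    have hNN' : N ≤ N' := by rw [hN']; nlinarith
    have hNN'r : (N : ℝ) ≤ N' := by exact_mod_cast hNN'
    have hN'0 : (0 : ℝ) < N' := by linarith
    obtain ⟨L', hL'⟩ : ∃ L', L' = Real.log (N' : ℝ) := ⟨_, rfl⟩
    have hLL' : L ≤ L' := by rw [hL, hL']; exact Real.log_le_log hN0 hNN'r
    have hL'0 : 0 < L' := by linarith
    have hL'2 : L' ≤ 2 * L := by
      have hLN : L ≤ N := by
        rw [hL]
        have := Real.log_le_sub_one_of_pos hN0
        linarith
      have e1 : (N' : ℝ) ≤ N ^ 2 := by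
        rw [hN'r, sq]
        apply mul_le_mul_of_nonneg_right _ hN0.le
        linarith
      have e2 := Real.log_le_log hN'0 e1
      rw [Real.log_pow, ← hL, ← hL'] at e2
      exact_mod_cast e2
    have c0 := h0 N' (by omega) x (fun m => ((cc + s m : ℕ) : ℤ)) (by
      intro m hm
      rw [Nat.abs_cast]
      have := hs m hm
      have h3 : cc + s m ≤ N' := by rw [hN']; nlinarith
      exact_mod_cast h3) (by
      have e1 : energy h x (fun m => ((cc + s m : ℕ) : ℤ)) = energy h x (fun m => (s m : ℤ)) := by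
        have := Pool.Agent.TH935.LF.energy_shift h x (fun m => (s m : ℤ)) (-(cc : ℤ))
        rw [← this]
        congr 1
        ext m
        push_cast
        ring
      rw [e1, ← hL']
      calc (energy h x (fun m => (s m : ℤ)) : ℝ) * N' = (B + Bc + 1) * ((energy h x (fun m => (s m : ℤ)) : ℝ) * N) := by
            rw [hN'r]
            ring
        _ ≤ L * (L ^ C * (x : ℝ) ^ (2 * h)) := by
            apply mul_le_mul (by linarith) hen (by positivity) hL0.le
        _ = L ^ (C + 1) * (x : ℝ) ^ (2 * h) := by ring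
        _ ≤ L' ^ (C + 1) * (x : ℝ) ^ (2 * h) := by gcongr) z (by
      rw [← hL']
      calc L' ^ B0 ≤ (2 * L) ^ B0 := pow_le_pow_left₀ hL'0.le hL'2 _
        _ = 2 ^ B0 * L ^ B0 := mul_pow _ _ _
        _ ≤ L * L ^ B0 := by
            apply mul_le_mul_of_nonneg_right _ (by positivity)
            linarith
        _ = L ^ (B0 + 1) := by ring
        _ ≤ z := hz1) (by
      rw [← hL']
      exact hz2.trans (pow_le_pow_left₀ hL0.le hLL' _)) 1 le_rfl (by simp) 1 one_ne_zero N (by simpa using hNN') K hK G hG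
    rw [← hL'] at c0
    have e3 : ∑ m ∈ Icc 1 x, |∑ n ∈ Icc 1 N, G n * (lamI ((n : ℤ) + ((cc + 1 * s m : ℕ) : ℤ)) -
        lamzI z ((n : ℤ) + ((cc + 1 * s m : ℕ) : ℤ)))| ≤ K * (N' * x / L' ^ (U + 1)) := by
      refine le_trans (le_of_eq ?_) c0
      apply sum_congr rfl
      intro m _
      congr 1
      apply sum_congr rfl
      intro n _
      congr 1
      unfold Pool.Agent.TH935.LF.Dz
      rw [if_pos (by simp), Nat.cast_one, Int.ediv_one]
      have e4 : (n : ℤ) + ((cc + 1 * s m : ℕ) : ℤ) = ((cc + s m : ℕ) : ℤ) + 1 * (n : ℤ) := by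
        push_cast
        ring
      rw [e4]
    rw [div_le_iff₀ hx0]
    refine e3.trans ?_
    rw [mul_assoc]
    apply mul_le_mul_of_nonneg_left _ hK.le
    calc (N' : ℝ) * x / L' ^ (U + 1) ≤ (N' : ℝ) * x / L ^ (U + 1) := by gcongr
      _ = ((B + Bc + 1) / L) * (N / L ^ U * x) := by
          rw [hN'r, pow_succ]
          field_simp
      _ ≤ 1 * (N / L ^ U * x) := by
          apply mul_le_mul_of_nonneg_right _ (by positivity)
          rw [div_le_one hL0]
          linarith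
      _ = _ := one_mul _

end Pool.Agent.Helper85.AE
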