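import Pool.Agent.Helper85.AE.Law
import Pool.Agent.Helper85.AE.Enum

/-! Prime tuples whose shifts are values of families of nearly minimal additive energy. -/

set_option autoImplicit false

namespace Pool.Agent.Helper85.AE
open Finset
open Pool.Agent.H373R2.T7
open Pool.Agent.W93.TD (HLs)
open Pool.Agent.TH935.GF (En)

open Classical in
/-- averages over a product of laws are averages over the product of the families -/
lemma law_prod {k : ℕ} (x : Fin k → ℕ) (s : Fin k → ℕ → ℕ) (hx : ∀ i, 1 ≤ x i) (P : (Fin k → ℕ) → Prop) :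
    (∑ v ∈ Fintype.piFinset (fun i => (Icc 1 (x i)).image (s i)),
      (if P v then ∏ i, ((((Icc 1 (x i)).filter (fun m => s i m = v i)).card : ℝ) / x i) else 0)) =
      (((Fintype.piFinset (fun i => Icc 1 (x i))).filter (fun m => P (fun i => s i (m i)))).card : ℝ) / ∏ i, (x i : ℝ) := by
  have h1 : ∀ v : Fin k → ℕ, (if P v then ∏ i, ((((Icc 1 (x i)).filter (fun m => s i m = v i)).card : ℝ) / x i) else 0) =
      (((((Fintype.piFinset (fun i => Icc 1 (x i))).filter (fun m => P (fun i => s i (m i)))).filter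
        (fun m => (fun i => s i (m i)) = v)).card : ℕ) : ℝ) / ∏ i, (x i : ℝ) := by
    intro v
    have h2 : ((Fintype.piFinset (fun i => Icc 1 (x i))).filter (fun m => P (fun i => s i (m i)))).filter
        (fun m => (fun i => s i (m i)) = v) = if P v then Fintype.piFinset (fun i => (Icc 1 (x i)).filter (fun m => s i m = v i))
        else ∅ := by
      split_ifs with hP
      · ext m
        rw [mem_filter, mem_filter, Fintype.mem_piFinset, Fintype.mem_piFinset]
        simp only [mem_filter]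
        constructor
        · rintro ⟨⟨a1, a2⟩, a3⟩ i
          exact ⟨a1 i, congrFun a3 i⟩
        · intro a1
          have a2 : (fun i => s i (m i)) = v := funext fun i => (a1 i).2
          exact ⟨⟨fun i => (a1 i).1, by rw [a2]; exact hP⟩, a2⟩
      · apply filter_eq_empty_iff.2
        intro m hm heq
        rw [mem_filter, heq] at hm
        exact hP hm.2
    rw [h2]
    split_ifs with hP
    · rw [Fintype.card_piFinset, prod_div_distrib]
      push_cast
      rfl
    · rw [card_empty]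
      simp
  rw [sum_congr rfl (fun v _ => h1 v), ← sum_div]
  congr 1
  rw [← Nat.cast_sum]
  congr 1
  symm
  apply card_eq_sum_card_fiberwise
  intro m hm
  have hm' := (mem_filter.1 (mem_coe.1 hm)).1
  rw [Fintype.mem_piFinset] at hm'
  rw [mem_coe, Fintype.mem_piFinset]
  intro i
  exact mem_image_of_mem _ (hm' i)

open Classical in
/-- the formula of Hardy and Littlewood for almost all vectors of values of families of small energy -/
theorem fam_tuples (k : ℕ) (hk : 1 ≤ k) (h C : Fin k → ℕ) (B U : ℕ) (ε : ℝ) (hε : 0 < ε) :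
    ∃ N₀ : ℕ, ∀ N, N₀ ≤ N → ∀ (x : Fin k → ℕ) (s : Fin k → ℕ → ℕ), (∀ i, 1 ≤ x i) →
      (∀ i, ∀ m ∈ Icc 1 (x i), s i m ≤ B * N) →
      (∀ i, (energy (h i) (x i) (fun m => (s i m : ℤ)) : ℝ) * N ≤ Real.log N ^ C i * (x i : ℝ) ^ (2 * h i)) →
      (((Fintype.piFinset (fun i => Icc 1 (x i))).filter (fun m => ¬ HLs ε U N (fun i => s i (m i)))).card : ℝ) ≤
        (∏ i, (x i : ℝ)) / Real.log N ^ U := by
  obtain ⟨N₀, h0⟩ := Pool.Agent.N469.PT.ws_final k hk (fun i => Fc (h i) B (C i)) (fun _ => 1) (fun _ => le_rfl) 0 U ε hε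
    (fun i => fc_one (h i) B (C i) 0 _)
  refine ⟨N₀, fun N hN x s hx hs hen => ?_⟩
  have h1 := h0 N hN (fun i => (Icc 1 (x i)).image (s i))
    (fun i v => (((Icc 1 (x i)).filter (fun m => s i m = v)).card : ℝ) / x i)
    (fun i => ⟨x i, s i, hx i, hs i, hen i, rfl, rfl⟩) (fun _ => 0) (fun _ => Nat.zero_le _)
  have h2 := law_prod x s hx (fun v => ¬ HLs ε U N (fun i => 0 + 1 * v i))
  have h3 : (0 : ℝ) < ∏ i, (x i : ℝ) := prod_pos fun i _ => by exact_mod_cast hx i
  have h4 := (le_of_eq h2.symm).trans (le_trans (le_of_eq (by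
    apply sum_congr rfl
    intro v _
    by_cases hv : HLs ε U N (fun i => 0 + 1 * v i)
    · rw [if_neg (not_not.2 hv), if_neg (not_not.2 hv)]
    · rw [if_pos hv, if_pos hv])) h1)
  rw [div_le_iff₀ h3] at h4
  have e1 : ∀ m : Fin k → ℕ, (fun i => 0 + 1 * s i (m i)) = (fun i => s i (m i)) := by
    intro m
    ext i
    ring
  simp only [e1] at h4
  refine h4.trans (le_of_eq ?_)
  ring

open Classical in
/-- the same for families indexed by finite sets of integers -/
theorem set_tuples (k : ℕ) (hk : 1 ≤ k) (h C : Fin k → ℕ) (B U : ℕ) (ε : ℝ) (hε : 0 < ε) :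
    ∃ N₀ : ℕ, ∀ N, N₀ ≤ N → ∀ (S : Fin k → Finset ℕ) (s : Fin k → ℕ → ℕ),
      (∀ i, ∀ m ∈ S i, s i m ≤ B * N) →
      (∀ i, (En (h i) (fun m : {m // m ∈ S i} => (s i m.1 : ℤ)) : ℝ) * N ≤ Real.log N ^ C i * ((S i).card : ℝ) ^ (2 * h i)) →
      (((Fintype.piFinset S).filter (fun m => ¬ HLs ε U N (fun i => s i (m i)))).card : ℝ) ≤
        (∏ i, ((S i).card : ℝ)) / Real.log N ^ U := by
  obtain ⟨N₀, h0⟩ := fam_tuples k hk h C B U ε hε
  refine ⟨N₀, fun N hN S s hs hen => ?_⟩
  by_cases hne : ∀ i, (S i).Nonempty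
  swap
  · push Not at hne
    obtain ⟨i, hi⟩ := hne
    have h5 : Fintype.piFinset S = ∅ := by
      rw [Fintype.piFinset_eq_empty]
      exact ⟨i, hi⟩
    rw [h5, filter_empty, card_empty, Nat.cast_zero]
    have : 0 ≤ Real.log (N : ℝ) := Real.log_natCast_nonneg N
    have h6 : (0 : ℝ) ≤ ∏ i, ((S i).card : ℝ) := prod_nonneg fun i _ => Nat.cast_nonneg _
    positivity
  choose e he1 he2 he3 he4 using fun i => enum_family (S i) (fun m => (s i m : ℤ)) (h i)
  have h1 := h0 N hN (fun i => (S i).card) (fun i j => s i (e i j)) (fun i => card_pos.2 (hne i))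
    (fun i m hm => hs i _ (he1 i m hm)) (fun i => by
      refine le_trans ?_ (hen i)
      apply mul_le_mul_of_nonneg_right _ (Nat.cast_nonneg _)
      exact_mod_cast he4 i)
  refine le_trans ?_ h1
  apply Nat.cast_le.2
  apply card_le_card_of_surjOn (fun j : Fin k → ℕ => fun i => e i (j i))
  intro m hm
  rw [mem_coe, mem_filter, Fintype.mem_piFinset] at hm
  choose j hj1 hj2 using fun i => he3 i (m i) (hm.1 i)
  refine ⟨j, ?_, funext hj2⟩
  rw [mem_coe, mem_filter, Fintype.mem_piFinset]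
  refine ⟨hj1, ?_⟩
  have e1 : (fun i => s i (e i (j i))) = (fun i => s i (m i)) := funext fun i => by rw [hj2 i]
  rw [e1]
  exact hm.2

end Pool.Agent.Helper85.AE
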